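import Pool.Agent.Lib.MP_d55432_al.G2.Iface

/-!
# G2, module CONS: the sets `RS` are constructible, stable cones
-/

namespace Pool.Agent.Lib.MP_d55432_al.G2.H82

open Matrix LieAlgebra

attribute [local instance 100] LieRing.ofAssociativeRing

namespace ConsAux

variable {K : Type*} [Field K]

/-! ### Boolean combinations -/

theorem univ' {X : Type*} {A : Set (X → K)} (h0 : (0 : X → K) ∈ A) :
    BoolComb A (Set.univ : Set X) := by
  have h := BoolComb.zeros (0 : X → K) h0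
  have h2 : {x : X | (0 : X → K) x = 0} = Set.univ := by ext x; simp
  rwa [h2] at h

theorem finset {X : Type*} {A : Set (X → K)} (h0 : (0 : X → K) ∈ A) {ι : Type*} (s : Finset ι)
    (S : ι → Set X) (hS : ∀ i ∈ s, BoolComb A (S i)) : BoolComb A {x | ∀ i ∈ s, x ∈ S i} := by
  classical
  induction s using Finset.induction_on with
  | empty =>
    have h2 : {x : X | ∀ i ∈ (∅ : Finset ι), x ∈ S i} = Set.univ := by ext x; simp
    rw [h2]
    exact univ' h0
  | insert a s ha ih =>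
    have h2 : {x : X | ∀ i ∈ insert a s, x ∈ S i} = S a ∩ {x | ∀ i ∈ s, x ∈ S i} := by
      ext x; simp
    rw [h2]
    exact (hS a (Finset.mem_insert_self _ _)).inter
      (ih fun i hi => hS i (Finset.mem_insert_of_mem hi))

theorem all {X : Type*} {A : Set (X → K)} (h0 : (0 : X → K) ∈ A) {ι : Type*} [Fintype ι]
    (g : ι → X → K) (hg : ∀ i, g i ∈ A) : BoolComb A {x | ∀ i, g i x = 0} := by
  have h := finset h0 (Finset.univ : Finset ι) (fun i => {x | g i x = 0})
    (fun i _ => BoolComb.zeros _ (hg i))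
  have h2 : {x : X | ∀ i ∈ (Finset.univ : Finset ι), x ∈ {x | g i x = 0}} =
      {x | ∀ i, g i x = 0} := by ext x; simp
  rwa [h2] at h

theorem zero_mem' : (0 : g2 K → K) ∈ (PolyOn K (g2 K) : Set (g2 K → K)) := Subalgebra.zero_mem _

theorem const_mem (c : K) : (fun _ : g2 K => c) ∈ PolyOn K (g2 K) :=
  Subalgebra.algebraMap_mem _ c

theorem entry_mem (i j : Fin 7) : (fun x : g2 K => x.1 i j) ∈ PolyOn K (g2 K) := by
  let ψ : Module.Dual K (g2 K) :=
    { toFun := fun X => X.1 i j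
      map_add' := fun _ _ => rfl
      map_smul' := fun _ _ => rfl }
  exact Algebra.subset_adjoin ⟨ψ, rfl⟩

theorem pow_entry_mem (k : ℕ) (i j : Fin 7) :
    (fun x : g2 K => (x.1 ^ k) i j) ∈ PolyOn K (g2 K) := by
  induction k generalizing i j with
  | zero =>
    simp only [pow_zero]
    exact const_mem _
  | succ k ih =>
    have h : (fun x : g2 K => (x.1 ^ (k + 1)) i j) =
        ∑ l : Fin 7, (fun x : g2 K => (x.1 ^ k) i l) * (fun x : g2 K => x.1 l j) := by
      funext x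
      rw [Finset.sum_apply, pow_succ, Matrix.mul_apply]
      rfl
    rw [h]
    exact Subalgebra.sum_mem _ fun l _ => Subalgebra.mul_mem _ (ih i l) (entry_mem l j)

theorem bool_mat (F : g2 K → M7 K) (hF : ∀ i j, (fun x => F x i j) ∈ PolyOn K (g2 K)) :
    BoolComb (PolyOn K (g2 K) : Set (g2 K → K)) {x : g2 K | F x = 0} := by
  have h1 := all zero_mem' (fun (ij : Fin 7 × Fin 7) (x : g2 K) => F x ij.1 ij.2)
    (fun ij => hF _ _)
  have h2 : {x : g2 K | ∀ ij : Fin 7 × Fin 7, F x ij.1 ij.2 = 0} = {x : g2 K | F x = 0} := by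
    ext x
    constructor
    · intro h
      ext i j
      exact h (i, j)
    · intro h ij
      have h3 : F x = 0 := h
      change F x ij.1 ij.2 = 0
      rw [h3]
      rfl
  rwa [h2] at h1

theorem bool_pow (k : ℕ) :
    BoolComb (PolyOn K (g2 K) : Set (g2 K → K)) {x : g2 K | x.1 ^ k = 0} :=
  bool_mat _ (pow_entry_mem k)

theorem bool_zero : BoolComb (PolyOn K (g2 K) : Set (g2 K → K)) {x : g2 K | x = 0} := by
  have h1 := bool_pow (K := K) 1
  have h2 : {x : g2 K | x.1 ^ 1 = 0} = {x : g2 K | x = 0} := by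
    ext x
    simp only [pow_one, Set.mem_ofPred_eq]
    exact ⟨fun h => Subtype.ext h, fun h => congrArg Subtype.val h⟩
  rwa [h2] at h1

theorem bool_prop (P : Prop) : BoolComb (PolyOn K (g2 K) : Set (g2 K → K)) {_x : g2 K | P} := by
  by_cases h : P
  · have h2 : {_x : g2 K | P} = Set.univ := by ext x; simp [h]
    rw [h2]
    exact univ' zero_mem'
  · have h2 : {_x : g2 K | P} = (Set.univ : Set (g2 K))ᶜ := by ext x; simp [h]
    rw [h2]
    exact (univ' zero_mem').compl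

/-! ### Ranks -/

theorem rank_zero_iff {n : ℕ} (A : Matrix (Fin n) (Fin n) K) : A.rank = 0 ↔ A = 0 := by
  constructor
  · intro h
    have h1 : Module.finrank K (LinearMap.range A.mulVecLin) = 0 := h
    rw [Submodule.finrank_eq_zero, LinearMap.range_eq_bot] at h1
    ext i j
    have h2 := LinearMap.congr_fun h1 (Pi.single j 1)
    have h3 := congrFun h2 i
    simpa using h3
  · rintro rfl
    exact Matrix.rank_zero

theorem rank_le_one_iff {n : ℕ} (A : Matrix (Fin n) (Fin n) K) :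
    A.rank ≤ 1 ↔ ∀ i j k l, A i j * A k l - A i l * A k j = 0 := by
  constructor
  · intro h i j k l
    have h1 : Module.finrank K (LinearMap.range A.mulVecLin) ≤ 1 := h
    rw [finrank_le_one_iff] at h1
    obtain ⟨v, hv⟩ := h1
    have hcol : ∀ j, ∃ c : K, ∀ i, A i j = c * v.1 i := by
      intro j
      obtain ⟨c, hc⟩ := hv ⟨A.mulVecLin (Pi.single j 1), LinearMap.mem_range_self _ _⟩
      refine ⟨c, fun i => ?_⟩
      have h2 := congrFun (congrArg Subtype.val hc) i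
      have h3 : (A.mulVecLin (Pi.single j 1)) i = A i j := by simp
      rw [← h3]
      exact h2.symm
    obtain ⟨c, hc⟩ := hcol j
    obtain ⟨d, hd⟩ := hcol l
    rw [hc, hd, hd, hc]
    ring
  · intro h
    by_cases hA : A = 0
    · rw [hA, Matrix.rank_zero]
      exact Nat.zero_le _
    · obtain ⟨i, j, hij⟩ : ∃ i j, A i j ≠ 0 := by
        by_contra hcon
        push Not at hcon
        exact hA (by ext i j; exact hcon i j)
      have h1 : A = Matrix.vecMulVec (fun k => A k j) (fun l => (A i j)⁻¹ * A i l) := by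
        ext k l
        rw [Matrix.vecMulVec_apply]
        have := h i j k l
        field_simp
        linear_combination this
      rw [h1]
      exact Matrix.rank_vecMulVec_le _ _

theorem rank_smul_le {n : ℕ} (t : K) (x : Matrix (Fin n) (Fin n) K) : (t • x).rank ≤ x.rank := by
  have h : t • x = (t • (1 : Matrix (Fin n) (Fin n) K)) * x := by
    rw [Matrix.smul_mul, Matrix.one_mul]
  rw [h]
  exact Matrix.rank_mul_le_right _ _

theorem rank_smul_eq {n : ℕ} (t : K) (ht : t ≠ 0) (x : Matrix (Fin n) (Fin n) K) :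
    (t • x).rank = x.rank := by
  refine le_antisymm (rank_smul_le t x) ?_
  have h := rank_smul_le t⁻¹ (t • x)
  rwa [smul_smul, inv_mul_cancel₀ ht, one_smul] at h

theorem rank_conj {g h : M7 K} (H : IsG g h) (X : M7 K) : (g * X * h).rank = X.rank := by
  refine le_antisymm ((Matrix.rank_mul_le_left _ _).trans (Matrix.rank_mul_le_right _ _)) ?_
  have h1 : X = h * (g * X * h) * g := by
    calc X = (h * g) * X * (h * g) := by rw [H.2.1, Matrix.one_mul, Matrix.mul_one]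
      _ = _ := by simp only [Matrix.mul_assoc]
  conv_lhs => rw [h1]
  exact (Matrix.rank_mul_le_left _ _).trans (Matrix.rank_mul_le_right _ _)

/-! ### Conjugation -/

theorem conj_mul {g h : M7 K} (H : IsG g h) (X Y : M7 K) :
    (g * X * h) * (g * Y * h) = g * (X * Y) * h := by
  calc (g * X * h) * (g * Y * h) = g * X * (h * g) * Y * h := by simp only [Matrix.mul_assoc]
    _ = _ := by rw [H.2.1, Matrix.mul_one]; simp only [Matrix.mul_assoc]

theorem conj_pow {g h : M7 K} (H : IsG g h) (X : M7 K) (k : ℕ) :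
    (g * X * h) ^ k = g * X ^ k * h := by
  induction k with
  | zero => rw [pow_zero, pow_zero, Matrix.mul_one, H.1]
  | succ k ih => rw [pow_succ, ih, conj_mul H, pow_succ]

theorem smul_TT (s l m : K) : s • TT l m = TT (s * l) (s * m) := by
  rw [TT, TT, ← Matrix.diagonal_smul]
  congr 1
  funext i
  fin_cases i <;> simp <;> ring

theorem TT_mem (l m : K) : TT l m ∈ g2 K := by
  intro x y
  funext i
  have h : ∀ z : V7 K, ∀ i, (TT l m *ᵥ z) i = (![0, l, m, -l - m, -l, -m, l + m] : V7 K) i * z i := by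
    intro z i
    rw [TT, Matrix.mulVec_diagonal]
  rw [h]
  fin_cases i <;> simp [br, h] <;> ring

theorem isDiag_TT (l m : K) : IsDiag (TT l m) := by
  rw [IsDiag, eq_top_iff]
  intro x _
  rw [← Finset.univ_sum_single x]
  refine Submodule.sum_mem _ fun i _ => ?_
  refine Submodule.mem_iSup_of_mem ((![0, l, m, -l - m, -l, -m, l + m] : V7 K) i) ?_
  rw [Module.End.mem_eigenspace_iff]
  funext k
  rw [Matrix.toLin'_apply, TT, Matrix.mulVec_diagonal]
  by_cases hk : k = i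
  · subst hk
    simp
  · simp [hk]

theorem Cj.trans {X Y Z : M7 K} (h1 : Cj X Y) (h2 : Cj Y Z) : Cj X Z := by
  obtain ⟨g, h, H, rfl⟩ := h1
  obtain ⟨g', h', H', rfl⟩ := h2
  refine ⟨g' * g, h * h', H'.mul H, ?_⟩
  simp only [Matrix.mul_assoc]

/-- the wall identities for the torus -/
theorem TT_cube {l m : K} (h : l * m * (l + m) = 0) :
    2 • TT l m ^ 3 = (l ^ 2 + m ^ 2 + (l + m) ^ 2) • TT l m := by
  rw [TT, Matrix.diagonal_pow, ← Matrix.diagonal_smul, ← Matrix.diagonal_smul]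
  congr 1
  funext i
  fin_cases i <;> simp <;> (try linear_combination 2 * h) <;> (try linear_combination (-2) * h)

theorem TT_five {l m : K} (h : (l - m) * (2 * l + m) * (l + 2 * m) = 0) :
    18 • TT l m ^ 5 - (15 * (l ^ 2 + m ^ 2 + (l + m) ^ 2)) • TT l m ^ 3 +
      (2 * (l ^ 2 + m ^ 2 + (l + m) ^ 2) ^ 2) • TT l m = 0 := by
  rw [TT, Matrix.diagonal_pow, Matrix.diagonal_pow, ← Matrix.diagonal_smul, ← Matrix.diagonal_smul,
    ← Matrix.diagonal_smul, Matrix.diagonal_sub, Matrix.diagonal_add, ← Matrix.diagonal_zero]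
  congr 1
  funext i
  fin_cases i
  · simp
  · simp
    linear_combination (-2 * l * (l + 2 * m)) * h
  · simp
    linear_combination (2 * m * (m + 2 * l)) * h
  · simp
    linear_combination (2 * (l + m) * (l - m)) * h
  · simp
    linear_combination (2 * l * (l + 2 * m)) * h
  · simp
    linear_combination (-2 * m * (m + 2 * l)) * h
  · simp
    linear_combination (-2 * (l + m) * (l - m)) * h


/-! ### The semisimple part -/

/-- the semisimple elements of `RS` -/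
def SA (K : Type*) [Field K] (l m : K) : Set (g2 K) := {x | ∃ s : K, s ≠ 0 ∧ Cj (s • TT l m) x.1}

theorem s_ne_zero [CharZero K] {l m : K} (h0 : l ≠ 0 ∨ m ≠ 0) (hr : ¬ Reg l m) :
    l ^ 2 + m ^ 2 + (l + m) ^ 2 ≠ 0 := by
  have h2 : (2 : K) ≠ 0 := two_ne_zero
  have h6 : (6 : K) ≠ 0 := by norm_num
  rw [Reg, not_not] at hr
  simp only [mul_eq_zero] at hr
  rcases hr with ((((h | h) | h) | h) | h) | h
  · have hm : m ≠ 0 := h0.resolve_left (fun h1 => h1 h)
    have : l ^ 2 + m ^ 2 + (l + m) ^ 2 = 2 * m ^ 2 := by rw [h]; ring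
    rw [this]; positivity
  · have hl : l ≠ 0 := h0.resolve_right (fun h1 => h1 h)
    have : l ^ 2 + m ^ 2 + (l + m) ^ 2 = 2 * l ^ 2 := by rw [h]; ring
    rw [this]; positivity
  · have hm : m = -l := by linear_combination h
    have hl : l ≠ 0 := by
      rintro rfl
      rw [neg_zero] at hm
      rcases h0 with h0 | h0
      · exact h0 rfl
      · exact h0 hm
    have : l ^ 2 + m ^ 2 + (l + m) ^ 2 = 2 * l ^ 2 := by rw [hm]; ring
    rw [this]; positivity
  · have hm : m = l := by linear_combination -h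
    have hl : l ≠ 0 := by
      rintro rfl
      rcases h0 with h0 | h0
      · exact h0 rfl
      · exact h0 hm
    have : l ^ 2 + m ^ 2 + (l + m) ^ 2 = 6 * l ^ 2 := by rw [hm]; ring
    rw [this]; positivity
  · have hm : m = -(2 * l) := by linear_combination h
    have hl : l ≠ 0 := by
      rintro rfl
      rw [mul_zero, neg_zero] at hm
      rcases h0 with h0 | h0
      · exact h0 rfl
      · exact h0 hm
    have : l ^ 2 + m ^ 2 + (l + m) ^ 2 = 6 * l ^ 2 := by rw [hm]; ring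
    rw [this]; positivity
  · have hl : l = -(2 * m) := by linear_combination h
    have hm : m ≠ 0 := by
      rintro rfl
      rw [mul_zero, neg_zero] at hl
      rcases h0 with h0 | h0
      · exact h0 hl
      · exact h0 rfl
    have : l ^ 2 + m ^ 2 + (l + m) ^ 2 = 6 * m ^ 2 := by rw [hl]; ring
    rw [this]; positivity

theorem inv_smul (hI : INV_S K) (s l m : K) :
    s2 (s • TT l m) = s ^ 2 * (l ^ 2 + m ^ 2 + (l + m) ^ 2) ∧
    s6 (s • TT l m) = s ^ 6 * (l * m * (l + m)) ^ 2 := by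
  obtain ⟨-, h2, h3, -⟩ := hI
  rw [(h2 _ _).1, (h2 _ _).2, (h3 _ _).1, (h3 _ _).2]
  exact ⟨rfl, rfl⟩

theorem inv_SA (hI : INV_S K) {l m : K} {x : g2 K} {s : K} (h : Cj (s • TT l m) x.1) :
    s2 x.1 = s ^ 2 * (l ^ 2 + m ^ 2 + (l + m) ^ 2) ∧
    s6 x.1 = s ^ 6 * (l * m * (l + m)) ^ 2 := by
  rw [(hI.1 _ _ h).1, (hI.1 _ _ h).2]
  exact inv_smul hI s l m

theorem mem_SA_reg [IsAlgClosed K] (hI : INV_S K) (hR : RD_S K) {l m : K} (hr : Reg l m)
    (x : g2 K) : x ∈ SA K l m ↔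
      s6 x.1 * (l ^ 2 + m ^ 2 + (l + m) ^ 2) ^ 3 - (l * m * (l + m)) ^ 2 * s2 x.1 ^ 3 = 0 ∧
      ¬ (s2 x.1 = 0 ∧ s6 x.1 = 0) := by
  have hr0 : (l * m * (l + m)) ^ 2 ≠ 0 := by
    intro h
    apply hr
    have h1 : l * m * (l + m) = 0 := pow_eq_zero_iff (two_ne_zero) |>.1 h
    rw [h1]
    ring
  constructor
  · rintro ⟨s, hs, h⟩
    obtain ⟨h1, h2⟩ := inv_SA hI h
    rw [h1, h2]
    refine ⟨by ring, fun h3 => ?_⟩
    exact mul_ne_zero (pow_ne_zero 6 hs) hr0 h3.2
  · rintro ⟨h1, h2⟩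
    set a := l ^ 2 + m ^ 2 + (l + m) ^ 2 with ha
    set r := (l * m * (l + m)) ^ 2 with hrd
    obtain ⟨s, hs, e1, e2⟩ : ∃ s : K, s ≠ 0 ∧ s2 x.1 = s ^ 2 * a ∧ s6 x.1 = s ^ 6 * r := by
      by_cases ha0 : a = 0
      · rw [ha0] at h1
        have h3 : s2 x.1 ^ 3 = 0 := by
          have : r * s2 x.1 ^ 3 = 0 := by linear_combination -h1
          exact (mul_eq_zero.1 this).resolve_left hr0
        have h4 : s2 x.1 = 0 := pow_eq_zero_iff (by norm_num) |>.1 h3
        obtain ⟨s, hs⟩ := IsAlgClosed.exists_pow_nat_eq (s6 x.1 / r) (by norm_num : 0 < 6)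
        have h5 : s6 x.1 = s ^ 6 * r := by rw [hs]; field_simp
        refine ⟨s, ?_, by rw [h4, ha0, mul_zero], h5⟩
        rintro rfl
        exact h2 ⟨h4, by rw [h5]; ring⟩
      · obtain ⟨s, hs⟩ := IsAlgClosed.exists_pow_nat_eq (s2 x.1 / a) (by norm_num : 0 < 2)
        have h5 : s2 x.1 = s ^ 2 * a := by rw [hs]; field_simp
        have h6 : s6 x.1 = s ^ 6 * r := by
          have ha3 : a ^ 3 ≠ 0 := pow_ne_zero 3 ha0
          apply mul_right_cancel₀ ha3
          rw [h5] at h1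
          linear_combination h1
        refine ⟨s, ?_, h5, h6⟩
        rintro rfl
        exact h2 ⟨by rw [h5]; ring, by rw [h6]; ring⟩
    refine ⟨s, hs, ?_⟩
    rw [smul_TT]
    refine hR.2.1 x.1 x.2 (s * l) (s * m) ?_ ?_ ?_
    · rw [Reg] at hr ⊢
      have : s * l * (s * m) * (s * l + s * m) * (s * l - s * m) * (2 * (s * l) + s * m) *
          (s * l + 2 * (s * m)) = s ^ 6 * (l * m * (l + m) * (l - m) * (2 * l + m) * (l + 2 * m)) := by
        ring
      rw [this]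
      exact mul_ne_zero (pow_ne_zero 6 hs) hr
    · rw [e1, ha]; ring
    · rw [e2, hrd]; ring

theorem mem_SA_wall [IsAlgClosed K] (hI : INV_S K) (hR : RD_S K) {l m : K}
    (hs0 : l ^ 2 + m ^ 2 + (l + m) ^ 2 ≠ 0) (F : M7 K → M7 K)
    (hF : ∀ s : K, F (s • TT l m) = 0) (hFc : ∀ g h : M7 K, IsG g h → ∀ X, s2 (g * X * h) = s2 X →
      F (g * X * h) = g * F X * h)
    (hFd : ∀ X ∈ g2 K, s2 X ≠ 0 → F X = 0 → IsDiag X)
    (x : g2 K) : x ∈ SA K l m ↔
      (s6 x.1 * (l ^ 2 + m ^ 2 + (l + m) ^ 2) ^ 3 - (l * m * (l + m)) ^ 2 * s2 x.1 ^ 3 = 0 ∧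
      ¬ s2 x.1 = 0) ∧ F x.1 = 0 := by
  constructor
  · rintro ⟨s, hs, h⟩
    obtain ⟨h1, h2⟩ := inv_SA hI h
    refine ⟨⟨by rw [h1, h2]; ring, ?_⟩, ?_⟩
    · rw [h1]
      exact mul_ne_zero (pow_ne_zero 2 hs) hs0
    · obtain ⟨g, k, H, hx⟩ := h
      rw [hx, hFc g k H _ ?_, hF, Matrix.mul_zero, Matrix.zero_mul]
      exact (hI.1 _ _ ⟨g, k, H, rfl⟩).1
  · rintro ⟨⟨h1, h2⟩, h3⟩
    set a := l ^ 2 + m ^ 2 + (l + m) ^ 2 with ha
    set r := (l * m * (l + m)) ^ 2 with hrd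
    obtain ⟨s, hs⟩ := IsAlgClosed.exists_pow_nat_eq (s2 x.1 / a) (by norm_num : 0 < 2)
    have h5 : s2 x.1 = s ^ 2 * a := by rw [hs]; field_simp
    have h6 : s6 x.1 = s ^ 6 * r := by
      have ha3 : a ^ 3 ≠ 0 := pow_ne_zero 3 hs0
      apply mul_right_cancel₀ ha3
      rw [h5] at h1
      linear_combination h1
    have hs0' : s ≠ 0 := by
      rintro rfl
      exact h2 (by rw [h5]; ring)
    refine ⟨s, hs0', ?_⟩
    obtain ⟨h7, h8⟩ := inv_smul hI s l m
    refine hR.1 _ ?_ x.1 x.2 ?_ (hFd _ x.2 h2 h3) (by rw [h7, h5]) (by rw [h8, h6])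
    · exact (g2 K).smul_mem s (TT_mem l m)
    · rw [smul_TT]
      exact isDiag_TT _ _

theorem rel_mem (hI : INV_S K) (a r : K) :
    (fun x : g2 K => s6 x.1 * a ^ 3 - r * s2 x.1 ^ 3) ∈ PolyOn K (g2 K) := by
  obtain ⟨-, -, -, h2, h6⟩ := hI
  exact Subalgebra.sub_mem _ (Subalgebra.mul_mem _ h6 (const_mem _))
    (Subalgebra.mul_mem _ (const_mem r) (Subalgebra.pow_mem _ h2 3))

theorem bool_SA [IsAlgClosed K] [CharZero K] (hI : INV_S K) (hR : RD_S K) {l m : K}
    (h0 : l ≠ 0 ∨ m ≠ 0) : BoolComb (PolyOn K (g2 K) : Set (g2 K → K)) (SA K l m) := by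
  have hI' := hI
  obtain ⟨-, -, -, hs2, hs6⟩ := hI'
  set a := l ^ 2 + m ^ 2 + (l + m) ^ 2 with ha
  set r := (l * m * (l + m)) ^ 2 with hrd
  have hrel : BoolComb (PolyOn K (g2 K) : Set (g2 K → K))
      {x : g2 K | s6 x.1 * a ^ 3 - r * s2 x.1 ^ 3 = 0} := BoolComb.zeros _ (rel_mem hI a r)
  have hb2 : BoolComb (PolyOn K (g2 K) : Set (g2 K → K)) {x : g2 K | s2 x.1 = 0} :=
    BoolComb.zeros _ hs2
  have hb6 : BoolComb (PolyOn K (g2 K) : Set (g2 K → K)) {x : g2 K | s6 x.1 = 0} :=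
    BoolComb.zeros _ hs6
  by_cases hr : Reg l m
  · have h : SA K l m = {x : g2 K | s6 x.1 * a ^ 3 - r * s2 x.1 ^ 3 = 0} ∩
        ({x : g2 K | s2 x.1 = 0} ∩ {x : g2 K | s6 x.1 = 0})ᶜ := by
      ext x
      rw [mem_SA_reg hI hR hr]
      rfl
    rw [h]
    exact hrel.inter (hb2.inter hb6).compl
  · have hs0 := s_ne_zero h0 hr
    have key : ∀ F : M7 K → M7 K, (∀ s : K, F (s • TT l m) = 0) →
        (∀ g h : M7 K, IsG g h → ∀ X, s2 (g * X * h) = s2 X → F (g * X * h) = g * F X * h) →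
        (∀ X ∈ g2 K, s2 X ≠ 0 → F X = 0 → IsDiag X) →
        (∀ i j, (fun x : g2 K => F x.1 i j) ∈ PolyOn K (g2 K)) →
        BoolComb (PolyOn K (g2 K) : Set (g2 K → K)) (SA K l m) := by
      intro F h1 h2 h3 h4
      have h : SA K l m = ({x : g2 K | s6 x.1 * a ^ 3 - r * s2 x.1 ^ 3 = 0} ∩
          {x : g2 K | s2 x.1 = 0}ᶜ) ∩ {x : g2 K | F x.1 = 0} := by
        ext x
        rw [mem_SA_wall hI hR hs0 F h1 h2 h3]
        rfl
      rw [h]
      exact (hrel.inter hb2.compl).inter (bool_mat (fun x => F x.1) h4)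
    have hcase : l * m * (l + m) = 0 ∨ (l - m) * (2 * l + m) * (l + 2 * m) = 0 := by
      rw [Reg, not_not] at hr
      have : (l * m * (l + m)) * ((l - m) * (2 * l + m) * (l + 2 * m)) = 0 := by
        linear_combination hr
      exact mul_eq_zero.1 this
    rcases hcase with hc | hc
    · refine key (fun X => (2 : K) • X ^ 3 - s2 X • X) ?_ ?_ ?_ ?_
      · intro s
        rw [(inv_smul hI s l m).1, smul_TT]
        have h1 := TT_cube (l := s * l) (m := s * m) (by linear_combination s ^ 3 * hc)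
        rw [sub_eq_zero, ← Nat.cast_smul_eq_nsmul K] at *
        rw [Nat.cast_ofNat] at h1
        rw [h1]
        congr 1
        ring
      · intro g k H X hX
        rw [hX, conj_pow H, Matrix.mul_sub, Matrix.sub_mul, Matrix.mul_smul, Matrix.smul_mul,
          Matrix.mul_smul, Matrix.smul_mul]
      · intro X hX h1 h2
        refine hR.2.2.1 X hX h1 ?_
        have h3 : (2 : K) • X ^ 3 = s2 X • X := sub_eq_zero.1 h2
        have h4 : X ^ 3 = (2 : K)⁻¹ • ((2 : K) • X ^ 3) := by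
          rw [smul_smul, inv_mul_cancel₀ two_ne_zero, one_smul]
        rw [h4, h3, smul_smul]
        congr 1
        ring
      · intro i j
        have h1 : (fun x : g2 K => ((2 : K) • x.1 ^ 3 - s2 x.1 • x.1) i j) =
            (fun x : g2 K => 2 * (x.1 ^ 3) i j - s2 x.1 * x.1 i j) := rfl
        rw [h1]
        exact Subalgebra.sub_mem _ (Subalgebra.mul_mem _ (const_mem 2) (pow_entry_mem 3 i j))
          (Subalgebra.mul_mem _ hs2 (entry_mem i j))
    · refine key (fun X => (18 : K) • X ^ 5 - (15 * s2 X) • X ^ 3 + (2 * s2 X ^ 2) • X) ?_ ?_ ?_ ?_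
      · intro s
        rw [(inv_smul hI s l m).1, smul_TT]
        have h1 := TT_five (l := s * l) (m := s * m) (by linear_combination s ^ 3 * hc)
        rw [← Nat.cast_smul_eq_nsmul K] at h1
        rw [Nat.cast_ofNat] at h1
        rw [← h1]
        congr 3
        · ring
        · ring
      · intro g k H X hX
        rw [hX, conj_pow H, conj_pow H, Matrix.mul_add, Matrix.add_mul, Matrix.mul_sub,
          Matrix.sub_mul, Matrix.mul_smul, Matrix.smul_mul,
          Matrix.mul_smul, Matrix.smul_mul, Matrix.mul_smul, Matrix.smul_mul]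
      · intro X hX h1 h2
        refine hR.2.2.2.1 X hX h1 ?_
        have h4 : X ^ 5 - (5 * s2 X / 6) • X ^ 3 + (s2 X ^ 2 / 9) • X =
            (18 : K)⁻¹ • ((18 : K) • X ^ 5 - (15 * s2 X) • X ^ 3 + (2 * s2 X ^ 2) • X) := by
          rw [smul_add, smul_sub, smul_smul, smul_smul, smul_smul,
            inv_mul_cancel₀ (by norm_num : (18 : K) ≠ 0), one_smul]
          congr 2
          · congr 1
            field_simp
            ring
          · field_simp
            ring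
        rw [h4, h2, smul_zero]
      · intro i j
        have h1 : (fun x : g2 K => ((18 : K) • x.1 ^ 5 - (15 * s2 x.1) • x.1 ^ 3 +
            (2 * s2 x.1 ^ 2) • x.1) i j) =
            (fun x : g2 K => 18 * (x.1 ^ 5) i j - (15 * s2 x.1) * (x.1 ^ 3) i j +
              (2 * s2 x.1 ^ 2) * x.1 i j) := rfl
        rw [h1]
        exact Subalgebra.add_mem _ (Subalgebra.sub_mem _
          (Subalgebra.mul_mem _ (const_mem 18) (pow_entry_mem 5 i j))
          (Subalgebra.mul_mem _ (Subalgebra.mul_mem _ (const_mem 15) hs2) (pow_entry_mem 3 i j)))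
          (Subalgebra.mul_mem _ (Subalgebra.mul_mem _ (const_mem 2) (Subalgebra.pow_mem _ hs2 2))
            (entry_mem i j))

/-! ### The nilpotent part -/

/-- the nonzero nilpotent elements of `RS` -/
def SN (K : Type*) [Field K] (T : Set ℕ) : Set (g2 K) :=
  {x | x ≠ 0 ∧ x.1 ^ 7 = 0 ∧ (x.1 * x.1).rank ∈ T}

theorem bool_minor : BoolComb (PolyOn K (g2 K) : Set (g2 K → K))
    {x : g2 K | (x.1 ^ 2).rank ≤ 1} := by
  have h1 := all zero_mem' (fun (p : Fin 7 × Fin 7 × Fin 7 × Fin 7) (x : g2 K) =>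
      (x.1 ^ 2) p.1 p.2.1 * (x.1 ^ 2) p.2.2.1 p.2.2.2 -
        (x.1 ^ 2) p.1 p.2.2.2 * (x.1 ^ 2) p.2.2.1 p.2.1)
    (fun p => Subalgebra.sub_mem _
      (Subalgebra.mul_mem _ (pow_entry_mem 2 _ _) (pow_entry_mem 2 _ _))
      (Subalgebra.mul_mem _ (pow_entry_mem 2 _ _) (pow_entry_mem 2 _ _)))
  have h2 : {x : g2 K | ∀ p : Fin 7 × Fin 7 × Fin 7 × Fin 7,
      (x.1 ^ 2) p.1 p.2.1 * (x.1 ^ 2) p.2.2.1 p.2.2.2 -
        (x.1 ^ 2) p.1 p.2.2.2 * (x.1 ^ 2) p.2.2.1 p.2.1 = 0} = {x : g2 K | (x.1 ^ 2).rank ≤ 1} := by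
    ext x
    constructor
    · intro h
      refine (rank_le_one_iff _).2 fun i j k l => ?_
      exact h (i, j, k, l)
    · intro h p
      exact (rank_le_one_iff _).1 h _ _ _ _
  rwa [h2] at h1

theorem mem_SN_iff (hN : NIL_S K) {T : Set ℕ} (x : g2 K) : x ∈ SN K T ↔
    (¬ x = 0 ∧ x.1 ^ 7 = 0) ∧ ((0 ∈ T ∧ x.1 ^ 2 = 0) ∨
      (1 ∈ T ∧ (x.1 ^ 2).rank ≤ 1 ∧ ¬ x.1 ^ 2 = 0) ∨
      (2 ∈ T ∧ x.1 ^ 5 = 0 ∧ ¬ (x.1 ^ 2).rank ≤ 1) ∨ (5 ∈ T ∧ ¬ x.1 ^ 5 = 0)) := by
  have hsq : x.1 * x.1 = x.1 ^ 2 := (pow_two _).symm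
  constructor
  · rintro ⟨h0, h7, hT⟩
    refine ⟨⟨h0, h7⟩, ?_⟩
    have h0' : x.1 ≠ 0 := fun h => h0 (Subtype.ext h)
    have h5 := hN.2 x.1 x.2 h7
    rw [hsq] at hT h5
    rcases hN.1 x.1 x.2 h7 h0' with ⟨h, -⟩ | ⟨h, -⟩ | ⟨h, -⟩ | ⟨h, -⟩ <;> rw [hsq] at h <;>
      rw [h] at hT
    · exact Or.inl ⟨hT, (rank_zero_iff _).1 h⟩
    · refine Or.inr (Or.inl ⟨hT, h.le, fun h2 => ?_⟩)
      rw [h2, Matrix.rank_zero] at h
      exact absurd h (by norm_num)
    · refine Or.inr (Or.inr (Or.inl ⟨hT, ?_, by rw [h]; norm_num⟩))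
      by_contra h2
      have := h5.2 h2
      rw [h] at this
      exact absurd this (by norm_num)
    · exact Or.inr (Or.inr (Or.inr ⟨hT, h5.1 h⟩))
  · rintro ⟨⟨h0, h7⟩, h⟩
    refine ⟨h0, h7, ?_⟩
    have h0' : x.1 ≠ 0 := fun h => h0 (Subtype.ext h)
    have h5 := hN.2 x.1 x.2 h7
    have hc := hN.1 x.1 x.2 h7 h0'
    rw [hsq] at h5 hc ⊢
    rcases h with ⟨hT, h⟩ | ⟨hT, h, h'⟩ | ⟨hT, h, h'⟩ | ⟨hT, h⟩
    · rw [h, Matrix.rank_zero]
      exact hT
    · have h1 : (x.1 ^ 2).rank ≠ 0 := fun h2 => h' ((rank_zero_iff _).1 h2)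
      have h2 : (x.1 ^ 2).rank = 1 := by omega
      rw [h2]
      exact hT
    · rcases hc with ⟨h1, -⟩ | ⟨h1, -⟩ | ⟨h1, -⟩ | ⟨h1, -⟩
      · exact absurd h1.le (fun h2 => h' (h2.trans (by norm_num)))
      · exact absurd h1.le h'
      · rw [h1]; exact hT
      · exact absurd h (h5.1 h1)
    · rw [h5.2 h]
      exact hT

theorem bool_SN (hN : NIL_S K) {T : Set ℕ} :
    BoolComb (PolyOn K (g2 K) : Set (g2 K → K)) (SN K T) := by
  have h : SN K T = ({x : g2 K | x = 0}ᶜ ∩ {x : g2 K | x.1 ^ 7 = 0}) ∩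
      (({_x : g2 K | 0 ∈ T} ∩ {x : g2 K | x.1 ^ 2 = 0}) ∪
      (({_x : g2 K | 1 ∈ T} ∩ ({x : g2 K | (x.1 ^ 2).rank ≤ 1} ∩ {x : g2 K | x.1 ^ 2 = 0}ᶜ)) ∪
      (({_x : g2 K | 2 ∈ T} ∩ ({x : g2 K | x.1 ^ 5 = 0} ∩ {x : g2 K | (x.1 ^ 2).rank ≤ 1}ᶜ)) ∪
      ({_x : g2 K | 5 ∈ T} ∩ {x : g2 K | x.1 ^ 5 = 0}ᶜ)))) := by
    ext x
    rw [mem_SN_iff hN]
    rfl
  rw [h]
  exact (bool_zero.compl.inter (bool_pow 7)).inter
    (((bool_prop _).inter (bool_pow 2)).union
      (((bool_prop _).inter (bool_minor.inter (bool_pow 2).compl)).union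
        (((bool_prop _).inter ((bool_pow 5).inter bool_minor.compl)).union
          ((bool_prop _).inter (bool_pow 5).compl))))

end ConsAux

open ConsAux in
theorem cons (K : Type*) [Field K] [IsAlgClosed K] [CharZero K] (hI : INV_S K) (hR : RD_S K)
    (hN : NIL_S K) (hA : AUT_S K) : CONS_S K := by
  intro l m T h0
  refine ⟨Or.inl rfl, ?_, ?_, ?_⟩
  · intro t x hx
    by_cases ht : t = 0
    · left
      rw [ht, zero_smul]
    rcases hx with hx | ⟨s, hs, g, h, H, hx⟩ | ⟨hx0, hx7, hxT⟩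
    · left
      rw [hx, smul_zero]
    · right; left
      refine ⟨t * s, mul_ne_zero ht hs, g, h, H, ?_⟩
      change t • x.1 = _
      rw [hx, mul_smul, Matrix.mul_smul, Matrix.smul_mul]
      rw [Matrix.mul_smul, Matrix.smul_mul, Matrix.mul_smul, Matrix.smul_mul]
    · right; right
      refine ⟨smul_ne_zero ht hx0, ?_, ?_⟩
      · change (t • x.1) ^ 7 = 0
        rw [smul_pow, hx7, smul_zero]
      · have h1 : (t • x).1 * (t • x).1 = (t * t) • (x.1 * x.1) := by
          change (t • x.1) * (t • x.1) = _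
          rw [Matrix.smul_mul, Matrix.mul_smul, smul_smul]
        rw [h1, rank_smul_eq _ (mul_ne_zero ht ht)]
        exact hxT
  · intro φ x hx
    obtain ⟨g, h, H, hφ⟩ := hA φ
    rw [hφ]
    rcases hx with hx | ⟨s, hs, hx⟩ | ⟨hx0, hx7, hxT⟩
    · left
      rw [hx, map_zero]
    · right; left
      exact ⟨s, hs, Cj.trans hx ⟨g, h, H, rfl⟩⟩
    · right; right
      refine ⟨fun h1 => hx0 ?_, ?_, ?_⟩
      · exact (conjG g h H).injective (h1.trans (map_zero _).symm)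
      · rw [conjG_coe, conj_pow H, hx7, Matrix.mul_zero, Matrix.zero_mul]
      · rw [conjG_coe, conj_mul H, rank_conj H]
        exact hxT
  · have h : RS K l m T = {x : g2 K | x = 0} ∪ (SA K l m ∪ SN K T) := by
      ext x
      rfl
    rw [h]
    exact bool_zero.union ((bool_SA hI hR h0).union (bool_SN hN))

end Pool.Agent.Lib.MP_d55432_al.G2.H82
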