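import Pool.Agent.Lib.MP_d55432_al.G2.Iface

/-!
# G2, module LIFT: covariants of vectors give covariants of tuples of elements of the Lie algebra
-/

namespace Pool.Agent.Lib.MP_d55432_al.G2.H82

open Matrix LieAlgebra

attribute [local instance 100] LieRing.ofAssociativeRing

namespace LiftAux

variable {K : Type*} [Field K]

theorem linear_eq_sum (φ : M7 K →ₗ[K] K) (A : M7 K) :
    φ A = ∑ i : Fin 7, ∑ j : Fin 7, A i j * φ (Matrix.single i j 1) := by
  conv_lhs => rw [Matrix.matrix_eq_sum_single A]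
  rw [map_sum]
  refine Finset.sum_congr rfl fun i _ => ?_
  rw [map_sum]
  refine Finset.sum_congr rfl fun j _ => ?_
  have h : Matrix.single i j (A i j) = A i j • Matrix.single i j (1 : K) := by
    rw [Matrix.smul_single, smul_eq_mul, mul_one]
  rw [h, map_smul, smul_eq_mul]

/-- `tau` as a linear map -/
noncomputable def tauL : M7 K →ₗ[K] V7 K where
  toFun := tau
  map_add' A B := by
    simp only [tau, add_mulVec, br_add_left, smul_add]
    abel
  map_smul' c A := by
    simp only [tau, smul_mulVec, br_smul_left, smul_add, RingHom.id_apply]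
    simp only [smul_comm c (2 : K)]

section poly

variable {σ : Type*}

theorem const_mem (c : K) : (fun _ : σ → g2 K => c) ∈ PolyFun K (g2 K) σ :=
  Subalgebra.algebraMap_mem _ c

theorem entry_mem (s : σ) (i j : Fin 7) :
    (fun X : σ → g2 K => (X s).1 i j) ∈ PolyFun K (g2 K) σ := by
  let ψ : Module.Dual K (g2 K) :=
    { toFun := fun X => X.1 i j
      map_add' := fun _ _ => rfl
      map_smul' := fun _ _ => rfl }
  exact Algebra.subset_adjoin ⟨s, ψ, rfl⟩

theorem mul_mem {F G : (σ → g2 K) → M7 K}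
    (hF : ∀ i j, (fun X => F X i j) ∈ PolyFun K (g2 K) σ)
    (hG : ∀ i j, (fun X => G X i j) ∈ PolyFun K (g2 K) σ) (i j : Fin 7) :
    (fun X => (F X * G X) i j) ∈ PolyFun K (g2 K) σ := by
  have h : (fun X => (F X * G X) i j) = ∑ k : Fin 7, (fun X => F X i k) * (fun X => G X k j) := by
    funext X
    rw [Finset.sum_apply, Matrix.mul_apply]
    rfl
  rw [h]
  exact Subalgebra.sum_mem _ fun k _ => Subalgebra.mul_mem _ (hF i k) (hG k j)

theorem linear_mem (φ : M7 K →ₗ[K] K) {F : (σ → g2 K) → M7 K}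
    (hF : ∀ i j, (fun X => F X i j) ∈ PolyFun K (g2 K) σ) :
    (fun X => φ (F X)) ∈ PolyFun K (g2 K) σ := by
  have h : (fun X => φ (F X)) = ∑ i : Fin 7, ∑ j : Fin 7,
      (fun X => F X i j) * (fun _ => φ (Matrix.single i j 1)) := by
    funext X
    rw [linear_eq_sum, Finset.sum_apply]
    refine Finset.sum_congr rfl fun i _ => ?_
    rw [Finset.sum_apply]
    rfl
  rw [h]
  exact Subalgebra.sum_mem _ fun i _ => Subalgebra.sum_mem _ fun j _ =>
    Subalgebra.mul_mem _ (hF i j) (const_mem _)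

theorem comp_mem {n : ℕ} {u : (σ → g2 K) → (Fin n → V7 K)} {y : (σ → g2 K) → K}
    (hu : ∀ i j, (fun X => u X i j) ∈ PolyFun K (g2 K) σ) (hy : y ∈ PolyFun K (g2 K) σ)
    {φ : (Fin n → V7 K) × K → K} (hφ : φ ∈ PF K n) :
    (fun X => φ (u X, y X)) ∈ PolyFun K (g2 K) σ := by
  unfold PF at hφ
  induction hφ using Algebra.adjoin_induction with
  | mem φ h =>
    rcases h with ⟨i, j, rfl⟩ | h
    · exact hu i j
    · rw [Set.mem_singleton_iff] at h
      subst h
      exact hy
  | algebraMap r => exact const_mem r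
  | add φ ψ _ _ h1 h2 => exact Subalgebra.add_mem _ h1 h2
  | mul φ ψ _ _ h1 h2 => exact Subalgebra.mul_mem _ h1 h2

end poly

/-- `(x, y, z) ↦ trace (x [y, z])` -/
def tr3 (x y z : M7 K) : K := (x * (y * z - z * y)).trace

theorem tr3_conj {g h : M7 K} (H : IsG g h) (x y z : M7 K) :
    tr3 (g * x * h) (g * y * h) (g * z * h) = tr3 x y z := by
  have h1 : ∀ P Q : M7 K, (g * P * h) * (g * Q * h) = g * (P * Q) * h := by
    intro P Q
    calc (g * P * h) * (g * Q * h) = g * P * (h * g) * Q * h := by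
          simp only [Matrix.mul_assoc]
      _ = _ := by rw [H.2.1, Matrix.mul_one]; simp only [Matrix.mul_assoc]
  rw [tr3, tr3, h1, h1, ← Matrix.sub_mul, ← Matrix.mul_sub, h1, Matrix.trace_mul_comm,
    ← Matrix.mul_assoc, H.2.1, Matrix.one_mul]

/-- the root vectors `E₁₂`, `E₂₁` -/
def E12 (K : Type*) [Field K] : M7 K := gM ![0, 0, 1, 0, 0, 0, 0, 0, 0, 0, 0, 0, 0, 0]

@[inherit_doc E12]
def E21 (K : Type*) [Field K] : M7 K := gM ![0, 0, 0, 0, 1, 0, 0, 0, 0, 0, 0, 0, 0, 0]

theorem E12_mem : E12 K ∈ g2 K := by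
  intro x y
  funext i
  fin_cases i <;> simp [E12, gM, br, Matrix.mulVec, dotProduct, Fin.sum_univ_succ] <;> ring

theorem E21_mem : E21 K ∈ g2 K := by
  intro x y
  funext i
  fin_cases i <;> simp [E21, gM, br, Matrix.mulVec, dotProduct, Fin.sum_univ_succ] <;> ring

theorem TT_mem' (l m : K) : TT l m ∈ g2 K := by
  intro x y
  funext i
  have h : ∀ z : V7 K, ∀ i, (TT l m *ᵥ z) i = (![0, l, m, -l - m, -l, -m, l + m] : V7 K) i * z i := by
    intro z i
    rw [TT, Matrix.mulVec_diagonal]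
  rw [h]
  fin_cases i <;> simp [br, h] <;> ring

theorem lie_E : E12 K * E21 K - E21 K * E12 K = TT 1 (-1) := by
  ext i j
  fin_cases i <;> fin_cases j <;>
    simp [E12, E21, gM, TT]

theorem tr3_surj [CharZero K] (c : K) : tr3 (TT (c / 2) 0) (E12 K) (E21 K) = c := by
  rw [tr3, lie_E, TT, TT, Matrix.diagonal_mul_diagonal, Matrix.trace_diagonal]
  simp [Fin.sum_univ_succ]

end LiftAux

open LiftAux in
theorem lift (K : Type*) [Field K] [IsAlgClosed K] [CharZero K] (hT : TAU_S K)
    (hA : AUT_S K) : LIFT_S K := by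
  intro n d Ψ hΨ
  obtain ⟨hT1, -, hT3⟩ := hT
  let e : Fin (n + 1) × Fin 3 ≃ Fin ((n + 1) * 3) := finProdFinEquiv
  let P : (Fin ((n + 1) * 3) → g2 K) → Fin (n + 1) → M7 K := fun X i =>
    (X (e (i, 0))).1 * (X (e (i, 1))).1 * (X (e (i, 2))).1
  let u : (Fin ((n + 1) * 3) → g2 K) → Fin n → V7 K := fun X i => tau (P X i.castSucc)
  let y : (Fin ((n + 1) * 3) → g2 K) → K := fun X =>
    tr3 (X (e (Fin.last n, 0))).1 (X (e (Fin.last n, 1))).1 (X (e (Fin.last n, 2))).1
  have hu : ∀ i j, (fun X => u X i j) ∈ PolyFun K (g2 K) (Fin ((n + 1) * 3)) := by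
    intro i j
    exact linear_mem ((LinearMap.proj j).comp tauL)
      (mul_mem (mul_mem (entry_mem _) (entry_mem _)) (entry_mem _))
  have hy : y ∈ PolyFun K (g2 K) (Fin ((n + 1) * 3)) := by
    refine linear_mem (Matrix.traceLinearMap (Fin 7) K K) (mul_mem (entry_mem _) fun i j => ?_)
    exact Subalgebra.sub_mem _ (mul_mem (entry_mem _) (entry_mem _) i j)
      (mul_mem (entry_mem _) (entry_mem _) i j)
  refine ⟨(n + 1) * 3, 3 * d, fun X => Ψ (u X) (y X), by have := hΨ.pos; omega, ?_, ?_, ?_, ?_⟩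
  · intro ψ
    obtain ⟨φ, hφ⟩ := LinearMap.exists_extend (p := (g2 K).toSubmodule) ψ
    have h1 : ∀ Y : g2 K, ψ Y = φ Y.1 := fun Y => (LinearMap.congr_fun hφ Y).symm
    simp only [h1]
    exact linear_mem φ fun i j => comp_mem hu hy (hΨ.poly i j)
  · intro φ X
    obtain ⟨g, h, H, hφ⟩ := hA φ
    have hP : ∀ i, P (fun k => φ (X k)) i = g * P X i * h := by
      intro i
      simp only [P, hφ, conjG_coe]
      have h1 : ∀ P Q : M7 K, (g * P * h) * (g * Q * h) = g * (P * Q) * h := by
        intro P Q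
        calc (g * P * h) * (g * Q * h) = g * P * (h * g) * Q * h := by
              simp only [Matrix.mul_assoc]
          _ = _ := by rw [H.2.1, Matrix.mul_one]; simp only [Matrix.mul_assoc]
      rw [h1, h1]
    have h2 : u (fun k => φ (X k)) = fun i => g *ᵥ u X i := by
      funext i
      simp only [u, hP]
      exact hT1 g h H _
    have h3 : y (fun k => φ (X k)) = y X := by
      simp only [y, hφ, conjG_coe]
      exact tr3_conj H _ _ _
    apply Subtype.ext
    change (Ψ (u fun k => φ (X k)) (y fun k => φ (X k))).1 = (φ (Ψ (u X) (y X))).1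
    rw [h2, h3, hφ, conjG_coe]
    exact hΨ.equiv g h H _ _
  · intro t X
    have h2 : u (t • X) = fun i => t ^ 3 • u X i := by
      funext i
      have h3 : P (t • X) i.castSucc = t ^ 3 • P X i.castSucc := by
        change (t • (X (e (i.castSucc, 0))).1) * (t • (X (e (i.castSucc, 1))).1) *
          (t • (X (e (i.castSucc, 2))).1) = _
        simp only [Matrix.smul_mul, Matrix.mul_smul, smul_smul, P]
        congr 1
        ring
      change tauL (P (t • X) i.castSucc) = t ^ 3 • tauL (P X i.castSucc)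
      rw [h3, map_smul]
    have h3 : y (t • X) = t ^ 3 * y X := by
      change tr3 (t • (X (e (Fin.last n, 0))).1) (t • (X (e (Fin.last n, 1))).1)
        (t • (X (e (Fin.last n, 2))).1) = _
      simp only [tr3, Matrix.smul_mul, Matrix.mul_smul, smul_smul, ← smul_sub, Matrix.trace_smul, y,
        smul_eq_mul]
      ring
    change Ψ (u (t • X)) (y (t • X)) = t ^ (3 * d) • Ψ (u X) (y X)
    rw [h2, h3, hΨ.homog, pow_mul]
  · apply Set.Subset.antisymm
    · rintro _ ⟨X, rfl⟩
      exact ⟨u X, y X, rfl⟩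
    · rintro _ ⟨a, c, rfl⟩
      choose x1 x2 x3 hx using fun i => hT3 (a i)
      let Z : Fin (n + 1) → Fin 3 → g2 K := Fin.snoc (α := fun _ => Fin 3 → g2 K)
        (fun i : Fin n => ![x1 i, x2 i, x3 i])
        ![⟨TT (c / 2) 0, TT_mem' _ _⟩, ⟨E12 K, E12_mem⟩, ⟨E21 K, E21_mem⟩]
      refine ⟨fun k => Z (e.symm k).1 (e.symm k).2, ?_⟩
      have h1 : u (fun k => Z (e.symm k).1 (e.symm k).2) = a := by
        funext i
        simp only [u, P, Equiv.symm_apply_apply, Z, Fin.snoc_castSucc]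
        exact hx i
      have h2 : y (fun k => Z (e.symm k).1 (e.symm k).2) = c := by
        simp only [y, Equiv.symm_apply_apply, Z, Fin.snoc_last]
        exact tr3_surj c
      simp only [h1, h2]

end Pool.Agent.Lib.MP_d55432_al.G2.H82
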